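import Mathlib

/-!
A connected self 2-distance graph on 13 vertices with a cut vertex.
-/

namespace Pool.Agent.Results.MP_9880a5_co.CutVertexCounterexample

/-- The 2-distance graph of `G`: two vertices are adjacent when their distance in `G` is
exactly two. -/
def twoDistanceGraph {V : Type*} (G : SimpleGraph V) : SimpleGraph V where
  Adj x y := G.dist x y = 2
  symm := ⟨fun x y h => by rw [SimpleGraph.dist_comm]; exact h⟩
  loopless := ⟨fun x h => by simp at h⟩

/-- Boolean edge relation of the counterexample: a triangle `5, 7, 9` with a leaf `2` at `5`,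
a path `9 - 11 - 10 - 3 - 8 - 12`, a leaf `6` at `12` and a path `12 - 4 - 0 - 1`. -/
def edgeB (a b : Fin 13) : Bool :=
  match a.val, b.val with
  | 0, 1 | 1, 0 => true
  | 0, 4 | 4, 0 => true
  | 4, 12 | 12, 4 => true
  | 6, 12 | 12, 6 => true
  | 8, 12 | 12, 8 => true
  | 3, 8 | 8, 3 => true
  | 3, 10 | 10, 3 => true
  | 10, 11 | 11, 10 => true
  | 9, 11 | 11, 9 => true
  | 7, 9 | 9, 7 => true
  | 5, 9 | 9, 5 => true
  | 5, 7 | 7, 5 => true
  | 2, 5 | 5, 2 => true
  | _, _ => false

/-- The counterexample. -/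
def Gam : SimpleGraph (Fin 13) where
  Adj x y := edgeB x y = true
  symm := ⟨by decide⟩
  loopless := ⟨by decide⟩

instance : DecidableRel Gam.Adj := fun x y => inferInstanceAs (Decidable (edgeB x y = true))

theorem dist_eq_two_iff {V : Type*} (G : SimpleGraph V) (x y : V) :
    G.dist x y = 2 ↔ x ≠ y ∧ ¬ G.Adj x y ∧ ∃ z, G.Adj x z ∧ G.Adj z y := by
  constructor
  · intro h
    refine ⟨?_, ?_, ?_⟩
    · rintro rfl
      simp at h
    · intro hadj
      have := SimpleGraph.dist_eq_one_iff_adj.mpr hadj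
      omega
    · have hr : G.Reachable x y := by
        by_contra hn
        rw [SimpleGraph.dist_eq_zero_of_not_reachable hn] at h
        omega
      obtain ⟨w, hw⟩ := hr.exists_walk_length_eq_dist
      rw [h] at hw
      match w, hw with
      | .cons h1 (.cons h2 .nil), _ => exact ⟨_, h1, h2⟩
  · rintro ⟨hne, hnadj, z, h1, h2⟩
    have hle : G.dist x y ≤ 2 := by
      have := SimpleGraph.dist_le (SimpleGraph.Walk.cons h1 (SimpleGraph.Walk.cons h2 .nil))
      simpa using this
    have hr : G.Reachable x y := ⟨SimpleGraph.Walk.cons h1 (SimpleGraph.Walk.cons h2 .nil)⟩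
    have h0 : G.dist x y ≠ 0 := by
      intro h0
      rcases (SimpleGraph.dist_eq_zero_iff_eq_or_not_reachable).mp h0 with h | h
      · exact hne h
      · exact h hr
    have h1 : G.dist x y ≠ 1 := by
      intro h1
      exact hnadj (SimpleGraph.dist_eq_one_iff_adj.mp h1)
    omega

theorem gam_connected : Gam.Connected := by
  have e : ∀ a b : Fin 13, edgeB a b = true → Gam.Reachable a b := fun a b h =>
    SimpleGraph.Adj.reachable (G := Gam) h
  have r0 : Gam.Reachable 0 0 := SimpleGraph.Reachable.refl 0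
  have r1 : Gam.Reachable 0 1 := e 0 1 rfl
  have r4 : Gam.Reachable 0 4 := e 0 4 rfl
  have r12 : Gam.Reachable 0 12 := r4.trans (e 4 12 rfl)
  have r6 : Gam.Reachable 0 6 := r12.trans (e 12 6 rfl)
  have r8 : Gam.Reachable 0 8 := r12.trans (e 12 8 rfl)
  have r3 : Gam.Reachable 0 3 := r8.trans (e 8 3 rfl)
  have r10 : Gam.Reachable 0 10 := r3.trans (e 3 10 rfl)
  have r11 : Gam.Reachable 0 11 := r10.trans (e 10 11 rfl)
  have r9 : Gam.Reachable 0 9 := r11.trans (e 11 9 rfl)
  have r7 : Gam.Reachable 0 7 := r9.trans (e 9 7 rfl)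
  have r5 : Gam.Reachable 0 5 := r9.trans (e 9 5 rfl)
  have r2 : Gam.Reachable 0 2 := r5.trans (e 5 2 rfl)
  have key : ∀ v : Fin 13, Gam.Reachable 0 v := by
    intro v
    fin_cases v <;> assumption
  have : Nonempty (Fin 13) := ⟨0⟩
  exact SimpleGraph.Connected.mk fun u v => (key u).symm.trans (key v)

/-- The isomorphism from the 2-distance graph to the graph: the cyclic shift. -/
def isoGam : twoDistanceGraph Gam ≃g Gam where
  toEquiv := Equiv.addRight 1
  map_rel_iff' := by
    intro a b
    change Gam.Adj (a + 1) (b + 1) ↔ Gam.dist a b = 2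
    rw [dist_eq_two_iff]
    revert a b
    decide

/-- There is a connected graph on 13 vertices that is isomorphic to its own 2-distance graph and
has a cut vertex. -/
theorem result : ∃ Γ : SimpleGraph (Fin 13),
    Γ.Connected ∧ Nonempty (twoDistanceGraph Γ ≃g Γ) ∧
      ∃ v : Fin 13, ¬ (Γ.induce {v}ᶜ).Connected := by
  refine ⟨Gam, gam_connected, ⟨isoGam⟩, 12, ?_⟩
  intro hc
  have h6 : (6 : Fin 13) ∈ ({12}ᶜ : Set (Fin 13)) := by decide
  have h0 : (0 : Fin 13) ∈ ({12}ᶜ : Set (Fin 13)) := by decide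
  obtain ⟨w⟩ := hc.preconnected ⟨6, h6⟩ ⟨0, h0⟩
  cases w with
  | cons h p =>
    rename_i v
    obtain ⟨v, hv⟩ := v
    have hadj : Gam.Adj 6 v := h
    have : ∀ v : Fin 13, Gam.Adj 6 v → v = 12 := by decide
    exact hv (this v hadj)

end Pool.Agent.Results.MP_9880a5_co.CutVertexCounterexample
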